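import Pool.Agent.Lib.BedF.Main

/-!
# MP_6f050a_an: dominated splittings into bunched blocks

`f` acts hyperbolically on the compact set `K`, `p ∈ K`, and `Es p = U 0 ⊕ W 0 ⊕ ... ⊕ W (r - 1)`,
`U (i + 1) = U i ⊕ W i`, such that along the forward orbit of `p`
* `W i` is dominated by `U i`: `|df^(n+m) w| |df^n u| ≤ C₁ exp(- η m) |df^n w| |df^(n+m) u|` for `u ∈ U i`, `w ∈ W i`;
* `W i` is bunched: `|df^(n+m) v|² |df^n w| ≤ C₁ exp(- η m) |df^n v|² |df^(n+m) w|` for `v, w ∈ W i`;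
* on the slowest block `U 0` (which may be zero) the rates are between `mu` and `lam₁`, where `lam₁ ^ 5 < mu ^ 2`, or
  `U 0` has dimension two and `lam₁ ^ 3 < mu`.
Then the stable manifold of `p` is biholomorphic to `ℂ^k`, `k = dim Es p`.  For `r = 0` this is the case of uniformly
pinched rates.
-/

set_option autoImplicit false

open scoped Manifold

namespace Pool.Agent.Results.MP_6f050a_an.DominatedSplitting

open Pool.Agent.Lib.Bed

theorem result (E : Type) [NormedAddCommGroup E] [NormedSpace ℂ E] [FiniteDimensional ℂ E]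
    (X : Type) [MetricSpace X] [ChartedSpace E X] [IsManifold 𝓘(ℂ, E) 1 X]
    (nrm : (x : X) → TangentSpace 𝓘(ℂ, E) x → ℝ) (f : X ≃ X) (K : Set X)
    (Es Eu : (x : X) → Submodule ℂ (TangentSpace 𝓘(ℂ, E) x)) (C lam : ℝ)
    (hnrm : IsFinsler nrm) (hf : IsHyp nrm f K Es Eu C lam) (p : X) (hp : p ∈ K)
    (r : ℕ) (U W : ℕ → Submodule ℂ (TangentSpace 𝓘(ℂ, E) p)) (C₁ η lam₁ mu : ℝ)
    (hU : U r = Es p) (hsum : ∀ i < r, U (i + 1) = U i ⊔ W i ∧ Disjoint (U i) (W i))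
    (hη : 0 < η)
    (hdom : ∀ i < r, ∀ n m : ℕ, ∀ u ∈ U i, ∀ w ∈ W i,
      nrm (f^[n + m] p) (dit f (n + m) p w) * nrm (f^[n] p) (dit f n p u) ≤
        C₁ * Real.exp (-(η * m)) *
          (nrm (f^[n] p) (dit f n p w) * nrm (f^[n + m] p) (dit f (n + m) p u)))
    (hbun : ∀ i < r, ∀ n m : ℕ, ∀ v ∈ W i, ∀ w ∈ W i,
      nrm (f^[n + m] p) (dit f (n + m) p v) ^ 2 * nrm (f^[n] p) (dit f n p w) ≤
        C₁ * Real.exp (-(η * m)) *
          (nrm (f^[n] p) (dit f n p v) ^ 2 * nrm (f^[n + m] p) (dit f (n + m) p w)))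
    (h0 : 0 < lam₁) (h1 : lam₁ < 1) (hmu0 : 0 < mu)
    (hmu : lam₁ ^ 5 < mu ^ 2 ∨ (Module.finrank ℂ (U 0) = 2 ∧ lam₁ ^ 3 < mu))
    (hpin : ∀ n m : ℕ, ∀ v ∈ U 0,
      mu ^ m * nrm (f^[n] p) (dit f n p v) ≤ C₁ * nrm (f^[n + m] p) (dit f (n + m) p v) ∧
      nrm (f^[n + m] p) (dit f (n + m) p v) ≤ C₁ * lam₁ ^ m * nrm (f^[n] p) (dit f n p v)) :
    StabCk E (Module.finrank ℂ (Es p)) f p := by
  have hnn : ∀ (x : X) (v : TangentSpace 𝓘(ℂ, E) x), 0 ≤ nrm x v := by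
    intro x v
    by_cases hv : v = 0
    · have h := hnrm.smul x 0 v
      rw [abs_zero, zero_mul, Complex.ofReal_zero, zero_smul] at h
      rw [hv, h]
    · exact (hnrm.pos x v hv).le
  have h4 : C₁ ≤ max C₁ 1 := le_max_left _ _
  have hC : 0 < max C₁ 1 := lt_max_of_lt_right one_pos
  have hn : ∀ (n : ℕ) (v : TangentSpace 𝓘(ℂ, E) p), 0 ≤ nit nrm f p n v := fun n v => hnn _ _
  refine Pool.Agent.Lib.BedF.bedfordF E X nrm f K Es Eu C lam hnrm hf p hp r U W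
    ⟨hU, fun i hi => (hsum i hi).1, fun i hi => (hsum i hi).2,
      ⟨max C₁ 1, η, hC, hη, fun i hi n m u hu w hw => ?_⟩,
      ⟨max C₁ 1, η, hC, hη, fun i hi n m v hv w hw => ?_⟩,
      ⟨max C₁ 1, lam₁, mu, hC, h0, h1, hmu0, hmu, fun n m v hv => ?_⟩⟩
  · refine (hdom i hi n m u hu w hw).trans ?_
    exact mul_le_mul_of_nonneg_right (mul_le_mul_of_nonneg_right h4 (Real.exp_pos _).le)
      (mul_nonneg (hn n w) (hn (n + m) u))
  · refine (hbun i hi n m v hv w hw).trans ?_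
    exact mul_le_mul_of_nonneg_right (mul_le_mul_of_nonneg_right h4 (Real.exp_pos _).le)
      (mul_nonneg (pow_nonneg (hn n v) 2) (hn (n + m) w))
  · obtain ⟨h2, h3⟩ := hpin n m v hv
    have h5 := hn (n + m) v
    have h6 := hn n v
    have h7 : 0 ≤ lam₁ ^ m := by positivity
    exact ⟨h2.trans (mul_le_mul_of_nonneg_right h4 h5), h3.trans
      (mul_le_mul_of_nonneg_right (mul_le_mul_of_nonneg_right h4 h7) h6)⟩

end Pool.Agent.Results.MP_6f050a_an.DominatedSplitting
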