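import Pool.Agent.Lib.BedR.Main

/-!
# MP_6f050a_an: Bedford's conjecture at generic points

`f` acts hyperbolically on the compact set `K`.  Let `G` be the set of the points `p` of `K` for which the stable
manifold of `p` is biholomorphic to `ℂ^k`, `k = dim Es p`.  Then `G` is an invariant `G_δ` set.  If the periodic points
of `f` in `K` are dense in `K`, then `G` is dense in `K`.
-/

set_option autoImplicit false

open scoped Manifold

namespace Pool.Agent.Results.MP_6f050a_an.GenericPoints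

open Pool.Agent.Lib.Bed

theorem result (E : Type) [NormedAddCommGroup E] [NormedSpace ℂ E] [FiniteDimensional ℂ E]
    (X : Type) [MetricSpace X] [ChartedSpace E X] [IsManifold 𝓘(ℂ, E) 1 X]
    (nrm : (x : X) → TangentSpace 𝓘(ℂ, E) x → ℝ) (f : X ≃ X) (K : Set X)
    (Es Eu : (x : X) → Submodule ℂ (TangentSpace 𝓘(ℂ, E) x)) (C lam : ℝ)
    (hnrm : IsFinsler nrm) (hf : IsHyp nrm f K Es Eu C lam) (G : Set X)
    (hG : G = {p | p ∈ K ∧ StabCk E (Module.finrank ℂ (Es p)) f p}) :
    IsGδ G ∧ f '' G = G ∧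
      (K ⊆ closure {p | p ∈ K ∧ ∃ m : ℕ, 0 < m ∧ f^[m] p = p} → K ⊆ closure G) := by
  subst hG
  obtain ⟨h1, h2⟩ := Pool.Agent.Lib.BedR.bedfordG E X nrm f K Es Eu C lam hnrm hf
  exact ⟨h1, Pool.Agent.Lib.BedR.ivtP Pool.Agent.Lib.Bed.sDm E X nrm f K Es Eu C lam hf, h2⟩

end Pool.Agent.Results.MP_6f050a_an.GenericPoints
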