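import Pool.Agent.Lib.Bed.Main2

/-!
# MP_6f050a_an: stable dimension two, pinched exponents at the point

`f` acts hyperbolically on the compact set `K`, `p ∈ K`, `dim Es p = 2`.  Let `S_m ≥ s_m` be the largest and
the smallest stretch of `df^m` on `Es p`.  If `S_m^b ≤ s_m ≤ S_m^a` for all large `m`, where
`b < a + 1`, then the stable manifold of `p` is biholomorphic to `ℂ²`.
-/

set_option autoImplicit false

open scoped Manifold
open Filter

namespace Pool.Agent.Results.MP_6f050a_an.PlaneExponents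

open Pool.Agent.Lib.Bed

theorem result (E : Type) [NormedAddCommGroup E] [NormedSpace ℂ E] [FiniteDimensional ℂ E]
    (X : Type) [MetricSpace X] [ChartedSpace E X] [IsManifold 𝓘(ℂ, E) 1 X]
    (nrm : (x : X) → TangentSpace 𝓘(ℂ, E) x → ℝ) (f : X ≃ X) (K : Set X)
    (Es Eu : (x : X) → Submodule ℂ (TangentSpace 𝓘(ℂ, E) x)) (C lam : ℝ)
    (hnrm : IsFinsler nrm) (hf : IsHyp nrm f K Es Eu C lam) (p : X) (hp : p ∈ K)
    (hdim : Module.finrank ℂ (Es p) = 2) (a b : ℝ) (hab : b < a + 1)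
    (S s : ℕ → ℝ)
    (hS : ∀ᶠ m : ℕ in atTop, (∀ v ∈ Es p, nrm (f^[m] p) (dit f m p v) ≤ S m * nrm p v) ∧
      ∃ v ∈ Es p, v ≠ 0 ∧ nrm (f^[m] p) (dit f m p v) = S m * nrm p v)
    (hs : ∀ᶠ m : ℕ in atTop, (∀ v ∈ Es p, s m * nrm p v ≤ nrm (f^[m] p) (dit f m p v)) ∧
      ∃ v ∈ Es p, v ≠ 0 ∧ nrm (f^[m] p) (dit f m p v) = s m * nrm p v)
    (hSs : ∀ᶠ m : ℕ in atTop, S m ^ b ≤ s m ∧ s m ≤ S m ^ a) :
    StabCk E 2 f p := by
  have hmain := bedford2 E X nrm f K Es Eu C lam hnrm hf p hp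
  rw [hdim] at hmain
  refine hmain (Or.inr (Or.inr (Or.inl ⟨hdim, a, b, hab, ?_⟩)))
  filter_upwards [hS, hs, hSs] with m h1 h2 h3
  refine ⟨S m, s m, ?_, ⟨fun v hv => ⟨h2.1 v hv, h1.1 v hv⟩, h1.2, h2.2⟩, h3⟩
  obtain ⟨v, hv, hv0, hv1⟩ := h2.2
  have h4 : 0 < nrm p v := hnrm.pos p v hv0
  have h5 : Function.Injective (dit (E := E) f m p) :=
    sAsAAux.iter_inj f.symm hf.hol_symm hf.hol m p
  have h6 : dit f m p v ≠ 0 := fun h => hv0 (h5 (h.trans (map_zero _).symm))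
  have h7 : 0 < s m * nrm p v := by
    rw [← hv1]
    exact hnrm.pos _ _ h6
  exact pos_of_mul_pos_left h7 h4.le

end Pool.Agent.Results.MP_6f050a_an.PlaneExponents
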