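import Pool.Agent.Lib.Bed.Main2

/-!
# MP_6f050a_an: pointwise bunching implies that the stable manifold is `ℂ^k`

`f` acts hyperbolically on the compact set `K`, `p ∈ K`.  The only assumption at `p` is
`|df^m v|² |w| ≤ C₁ exp(- η m) |v|² |df^m w|` for `v, w ∈ Es p` and `m ≥ 0`: the square of the largest
stretch of `df^m` on `Es p`, counted from the time zero, is exponentially small with respect to the
smallest stretch.  Nothing is assumed about the derivatives of `f^j` at the points `f^m p`, `m > 0`.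
-/

set_option autoImplicit false

open scoped Manifold

namespace Pool.Agent.Results.MP_6f050a_an.PointwiseBunching

open Pool.Agent.Lib.Bed

theorem result (E : Type) [NormedAddCommGroup E] [NormedSpace ℂ E] [FiniteDimensional ℂ E]
    (X : Type) [MetricSpace X] [ChartedSpace E X] [IsManifold 𝓘(ℂ, E) 1 X]
    (nrm : (x : X) → TangentSpace 𝓘(ℂ, E) x → ℝ) (f : X ≃ X) (K : Set X)
    (Es Eu : (x : X) → Submodule ℂ (TangentSpace 𝓘(ℂ, E) x)) (C lam : ℝ)
    (hnrm : IsFinsler nrm) (hf : IsHyp nrm f K Es Eu C lam) (p : X) (hp : p ∈ K)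
    (C₁ η : ℝ) (hη : 0 < η)
    (hb : ∀ m : ℕ, ∀ v ∈ Es p, ∀ w ∈ Es p,
      nrm (f^[m] p) (dit f m p v) ^ 2 * nrm p w ≤
        C₁ * Real.exp (-(η * m)) * nrm p v ^ 2 * nrm (f^[m] p) (dit f m p w)) :
    StabCk E (Module.finrank ℂ (Es p)) f p := by
  refine bedford2 E X nrm f K Es Eu C lam hnrm hf p hp (Or.inr (Or.inl ?_))
  have hnn : ∀ (x : X) (v : TangentSpace 𝓘(ℂ, E) x), 0 ≤ nrm x v := by
    intro x v
    by_cases hv : v = 0
    · have h := hnrm.smul x 0 v
      rw [abs_zero, zero_mul, Complex.ofReal_zero, zero_smul] at h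
      rw [hv, h]
    · exact (hnrm.pos x v hv).le
  refine ⟨max C₁ 1, η, lt_max_of_lt_right one_pos, hη, fun m v hv w hw => ?_⟩
  refine (hb m v hv w hw).trans ?_
  have h1 : 0 ≤ Real.exp (-(η * m)) := (Real.exp_pos _).le
  have h2 : 0 ≤ nrm p v ^ 2 := by positivity
  have h3 := hnn (f^[m] p) (dit f m p w)
  have h4 : C₁ ≤ max C₁ 1 := le_max_left _ _
  exact mul_le_mul_of_nonneg_right (mul_le_mul_of_nonneg_right
    (mul_le_mul_of_nonneg_right h4 h1) h2) h3

end Pool.Agent.Results.MP_6f050a_an.PointwiseBunching
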